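import Pool.Agent.Mob.Stmts

/-!
Module RET of squad T2: return from the depleted cube to the full cube.
-/

set_option autoImplicit false
set_option linter.unusedSectionVars false

open MeasureTheory ProbabilityTheory Function

open scoped ENNReal BigOperators InnerProductSpace

noncomputable section

namespace Pool.Agent.Mob.H64

open Pool.Agent.Anderson Pool.Agent.Loc Pool.Agent.Helper54.Bal

section gen

variable {d : ℕ} {ν : Measure ℝ} [IsProbabilityMeasure ν] {ρ : ℝ}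

theorem marg_pg (hν : BddDens ν ρ) (V : Site d → ℝ) (Λ : Finset (Site d)) (E : ℝ)
    (x y : Site d) :
    (∫⋯∫⁻_{x, y}, pg Λ E x y ∂(fun _ => ν)) V ≤ 1 + ENNReal.ofReal (2 * √(6 * ρ)) := by
  have h1 : (∫⋯∫⁻_{x, y}, pg Λ E x y ∂(fun _ => ν)) V ≤
      (∫⋯∫⁻_{x, y}, (fun V => (fun _ => (1 : ℝ≥0∞)) V + (fun V => ENNReal.ofReal
        (√|gr V Λ E x y|)) V) ∂(fun _ => ν)) V :=
    lmarginal_mono (fun V => p8_le _) V
  refine h1.trans ?_
  have h2 := marg_add (ν := ν) (s := ({x, y} : Finset (Site d)))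
    (f := fun _ : Site d → ℝ => (1 : ℝ≥0∞))
    (g := fun V => ENNReal.ofReal (√|gr V Λ E x y|)) measurable_const V
  rw [h2]
  have h3 : (∫⋯∫⁻_{x, y}, (fun _ : Site d → ℝ => (1 : ℝ≥0∞)) ∂(fun _ => ν)) =
      fun _ => (1 : ℝ≥0∞) := marg_free fun _ _ _ => rfl
  rw [h3]
  gcongr
  exact marg_sqrt hν V Λ E x y

end gen

/-- the expectation of a product, by decoupling at the two sites of the first factor -/
theorem term {C : ℝ} (hC : ∀ (d : ℕ) (σ : ℝ) (Λ₁ Λ₂ : Finset (Site d)) (E : ℝ)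
    (a b c e i j : Site d) (V : Site d → ℝ),
    (∫⋯∫⁻_{i, j}, (fun V => pg Λ₁ E a b V * pg Λ₂ E c e V) ∂(fun _ => gl σ)) V ≤
      ENNReal.ofReal C * ((∫⋯∫⁻_{i, j}, pg Λ₁ E a b ∂(fun _ => gl σ)) V *
        (∫⋯∫⁻_{i, j}, pg Λ₂ E c e ∂(fun _ => gl σ)) V))
    {d : ℕ} {σ : ℝ} (hσ : σ ≠ 0) (Ω Ω' : Finset (Site d)) (E : ℝ) (a b t y : Site d)
    (ha : a ∈ Ω) (hb : b ∈ Ω) :
    ∫⁻ V, pg Ω' E a b V * pg Ω E t y V ∂(PL (gl σ) Ω) ≤
      ENNReal.ofReal C * (1 + ENNReal.ofReal (2 * √(6 * (1 / |σ|)))) *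
        ∫⁻ V, pg Ω E t y V ∂(PL (gl σ) Ω) := by
  set S : Finset (Site d) := {a, b} with hS
  have hSΛ : S ⊆ Ω := by
    intro z hz
    simp only [hS, Finset.mem_insert, Finset.mem_singleton] at hz
    rcases hz with rfl | rfl <;> assumption
  have mA := measurable_pg Ω' E a b
  have mB := measurable_pg Ω E t y
  have mAB : Measurable fun V => pg Ω' E a b V * pg Ω E t y V := mA.mul mB
  have hun : ∀ f : (Site d → ℝ) → ℝ≥0∞, Measurable f →
      (∫⋯∫⁻_Ω, f ∂(fun _ => gl σ)) 0 =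
        (∫⋯∫⁻_(Ω \ S), (∫⋯∫⁻_S, f ∂(fun _ => gl σ)) ∂(fun _ => gl σ)) 0 := by
    intro f hf
    rw [← lmarginal_union _ _ hf Finset.sdiff_disjoint, Finset.sdiff_union_of_subset hSΛ]
  rw [lintegral_PL _ mAB, lintegral_PL _ mB, hun _ mAB, hun _ mB]
  have e2 : (∫⋯∫⁻_S, (fun V => pg Ω' E a b V * pg Ω E t y V) ∂(fun _ => gl σ)) ≤
      fun V => (ENNReal.ofReal C * (1 + ENNReal.ofReal (2 * √(6 * (1 / |σ|))))) *
        (∫⋯∫⁻_S, pg Ω E t y ∂(fun _ => gl σ)) V := by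
    intro V
    refine (hC d σ Ω' Ω E a b t y a b V).trans ?_
    beta_reduce
    rw [mul_assoc]
    gcongr
    exact marg_pg (bddDens_gl hσ) V Ω' E a b
  refine (lmarginal_mono e2 0).trans ?_
  rw [marg_const_mul _ (mB.lmarginal _)]

theorem pg_step {d : ℕ} {V : Site d → ℝ} {Ω Ω' : Finset (Site d)} {E : ℝ} (hG : GeoStmt)
    (hsub : Ω' ⊆ Ω) (h1 : (RM V Ω E).det ≠ 0) (h2 : (RM V Ω' E).det ≠ 0)
    {v' y : Site d} (hv : v' ∈ Ω') (hy : y ∈ Ω') :
    pg Ω' E v' y V ≤ pg Ω E v' y V +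
      ∑ u ∈ Ω', ∑ t ∈ Ω \ Ω', p8 (hop u t) * (pg Ω' E v' u V * pg Ω E t y V) := by
  have h3 := hG d V Ω Ω' E hsub h1 h2 v' hv y hy
  have h4 : gr V Ω' E v' y = gr V Ω E v' y + ∑ u ∈ Ω', ∑ t ∈ Ω \ Ω',
      -(gr V Ω' E v' u * hop u t * gr V Ω E t y) := by
    rw [h3]
    simp only [Finset.sum_neg_distrib]
    ring
  unfold pg
  rw [h4]
  refine (p8_add _ _).trans ?_
  gcongr
  refine (p8_sum _ _).trans (Finset.sum_le_sum fun u _ => ?_)
  refine (p8_sum _ _).trans (Finset.sum_le_sum fun t _ => ?_)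
  rw [p8_neg, p8_mul, p8_mul]
  refine le_of_eq ?_
  ring

theorem p8_hop_le {d : ℕ} (u t : Site d) (hd : 1 ≤ d) : p8 (hop u t) ≤ ENNReal.ofReal (2 * d) := by
  unfold p8
  apply ENNReal.ofReal_le_ofReal
  have h0 : 0 ≤ hop u t := hop_nonneg u t
  have h1 : hop u t ≤ 2 * d := hop_le u t
  have h2 : (1 : ℝ) ≤ 2 * d := by
    have : (1 : ℝ) ≤ d := by exact_mod_cast hd
    linarith
  rw [abs_of_nonneg h0]
  calc hop u t ^ (1 / 8 : ℝ) ≤ (2 * d : ℝ) ^ (1 / 8 : ℝ) :=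
        Real.rpow_le_rpow h0 h1 (by norm_num)
    _ ≤ (2 * d : ℝ) ^ (1 : ℝ) := Real.rpow_le_rpow_of_exponent_le h2 (by norm_num)
    _ = 2 * d := Real.rpow_one _

theorem ret (hD : DecStmt) (hG : GeoStmt) : RetStmt := by
  obtain ⟨C, hC0, hC⟩ := hD
  intro d hd
  refine ⟨1 + 2 * d * (C * 6), by positivity, ?_⟩
  intro σ hσ E L R c w y v' F _ hy hv hsd hF
  set Ω := box c R with hΩ
  set Ω' := Ω \ box w (L + 1) with hΩ'
  have hsub : Ω' ⊆ Ω := Finset.sdiff_subset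
  have hν := bddDens_gl hσ
  have n1 := PL_det hν Ω Ω le_rfl E
  have n2 := PL_det hν Ω' Ω hsub E
  have hPL : ∫⁻ V, pg Ω' E v' y V ∂(PL (gl σ) Ω') = ∫⁻ V, pg Ω' E v' y V ∂(PL (gl σ) Ω) := by
    rw [lintegral_PL _ (measurable_pg _ _ _ _), lintegral_PL _ (measurable_pg _ _ _ _),
      marg_subset (measurable_pg _ _ _ _) (only_pg Ω' E v' y) hsub]
  rw [hPL]
  have hae : ∀ᵐ V ∂(PL (gl σ) Ω), pg Ω' E v' y V ≤ pg Ω E v' y V +
      ∑ u ∈ Ω', ∑ t ∈ Ω \ Ω', p8 (hop u t) * (pg Ω' E v' u V * pg Ω E t y V) := by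
    have n1' : ∀ᵐ V ∂(PL (gl σ) Ω), (RM V Ω E).det ≠ 0 := by
      rw [ae_iff]; simpa using n1
    have n2' : ∀ᵐ V ∂(PL (gl σ) Ω), (RM V Ω' E).det ≠ 0 := by
      rw [ae_iff]; simpa using n2
    filter_upwards [n1', n2'] with V h1 h2
    exact pg_step hG hsub h1 h2 hv hy
  refine (lintegral_mono_ae hae).trans ?_
  have mt : ∀ u t : Site d, Measurable fun V : Site d → ℝ =>
      p8 (hop u t) * (pg Ω' E v' u V * pg Ω E t y V) := fun u t =>
    ((measurable_pg _ _ _ _).mul (measurable_pg _ _ _ _)).const_mul _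
  rw [lintegral_add_left (measurable_pg _ _ _ _)]
  rw [lintegral_finsetSum _ fun u _ => Finset.measurable_sum _ fun t _ => mt u t]
  have hvΩ : v' ∈ Ω := hsub hv
  set CA : ℝ≥0∞ := 1 + ENNReal.ofReal (2 * √(6 * (1 / |σ|))) with hCA
  set K : ℝ≥0∞ := ENNReal.ofReal (2 * d) * (ENNReal.ofReal C * CA * F) with hK
  have hterm : ∀ u ∈ Ω', ∀ t ∈ Ω \ Ω', ∫⁻ V, p8 (hop u t) * (pg Ω' E v' u V * pg Ω E t y V)
      ∂(PL (gl σ) Ω) ≤ if u ∈ box w (L + 2) ∧ t ∈ box w (L + 1) then K else 0 := by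
    intro u hu t ht
    have mm : Measurable fun V : Site d → ℝ => pg Ω' E v' u V * pg Ω E t y V :=
      (measurable_pg _ _ _ _).mul (measurable_pg _ _ _ _)
    rw [lintegral_const_mul _ mm]
    have htB : t ∈ box w (L + 1) := by
      rw [Finset.mem_sdiff, hΩ', Finset.mem_sdiff, not_and_not_right] at ht
      exact ht.2 ht.1
    by_cases hz : hop u t = 0
    · rw [hz, p8_zero, zero_mul]
      exact zero_le
    · have h1 := sd_of_hop hz
      have h2 := mem_box.1 htB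
      have h3 := sd_triangle w t u
      rw [sd_comm t u] at h3
      have huB : u ∈ box w (L + 2) := by
        rw [mem_box]
        omega
      rw [if_pos ⟨huB, htB⟩, hK]
      refine mul_le_mul' (p8_hop_le u t hd) ?_
      refine (term hC hσ Ω Ω' E v' u t y hvΩ (hsub hu)).trans ?_
      gcongr
      exact hF t (Finset.mem_sdiff.1 ht).1 (by omega)
  have hsum : ∑ u ∈ Ω', ∫⁻ V, ∑ t ∈ Ω \ Ω', p8 (hop u t) * (pg Ω' E v' u V * pg Ω E t y V)
      ∂(PL (gl σ) Ω) ≤ (((2 * L + 5) ^ d) ^ 2 : ℕ) * K := by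
    calc _ ≤ ∑ u ∈ Ω', ∑ t ∈ Ω \ Ω', (if u ∈ box w (L + 2) ∧ t ∈ box w (L + 1) then K else 0) := by
          refine Finset.sum_le_sum fun u hu => ?_
          rw [lintegral_finsetSum _ fun t _ => mt u t]
          exact Finset.sum_le_sum fun t ht => hterm u hu t ht
      _ ≤ ∑ u ∈ Ω' ∩ box w (L + 2), ∑ t ∈ (Ω \ Ω') ∩ box w (L + 1), K := by
          rw [← Finset.sum_filter_add_sum_filter_not Ω' (fun u => u ∈ box w (L + 2))]
          have h0 : ∑ u ∈ Ω' with ¬ u ∈ box w (L + 2), ∑ t ∈ Ω \ Ω',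
              (if u ∈ box w (L + 2) ∧ t ∈ box w (L + 1) then K else 0) = 0 := by
            refine Finset.sum_eq_zero fun u hu => Finset.sum_eq_zero fun t _ => ?_
            rw [if_neg]
            exact fun h => (Finset.mem_filter.1 hu).2 h.1
          rw [h0, add_zero, Finset.filter_mem_eq_inter]
          refine Finset.sum_le_sum fun u _ => ?_
          rw [← Finset.sum_filter_add_sum_filter_not (Ω \ Ω') (fun t => t ∈ box w (L + 1))]
          have h1 : ∑ t ∈ Ω \ Ω' with ¬ t ∈ box w (L + 1),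
              (if u ∈ box w (L + 2) ∧ t ∈ box w (L + 1) then K else 0) = 0 := by
            refine Finset.sum_eq_zero fun t ht => ?_
            rw [if_neg]
            exact fun h => (Finset.mem_filter.1 ht).2 h.2
          rw [h1, add_zero, Finset.filter_mem_eq_inter]
          refine Finset.sum_le_sum fun t _ => ?_
          split_ifs
          · exact le_rfl
          · exact zero_le
      _ = (((Ω' ∩ box w (L + 2)).card * ((Ω \ Ω') ∩ box w (L + 1)).card : ℕ) : ℝ≥0∞) * K := by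
          rw [Finset.sum_const, Finset.sum_const, nsmul_eq_mul, nsmul_eq_mul, ← mul_assoc]
          push_cast
          rfl
      _ ≤ (((2 * L + 5) ^ d) ^ 2 : ℕ) * K := by
          have c1 : (Ω' ∩ box w (L + 2)).card ≤ (2 * L + 5) ^ d := by
            have := Finset.card_le_card (Finset.inter_subset_right : Ω' ∩ box w (L + 2) ⊆ _)
            rw [card_box] at this
            exact this
          have c2 : ((Ω \ Ω') ∩ box w (L + 1)).card ≤ (2 * L + 5) ^ d := by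
            have := Finset.card_le_card (Finset.inter_subset_right.trans
              (box_mono w (by omega : L + 1 ≤ L + 2)) : (Ω \ Ω') ∩ box w (L + 1) ⊆ _)
            rw [card_box] at this
            exact this
          have c3 := Nat.mul_le_mul c1 c2
          rw [← pow_two] at c3
          gcongr
  have hσ' : 0 < |σ| := abs_pos.2 hσ
  have hCAle : CA ≤ ENNReal.ofReal (6 * (1 + 1 / |σ|) ^ (1 / 2 : ℝ)) := by
    rw [hCA, ← ENNReal.ofReal_one, ← ENNReal.ofReal_add (by norm_num) (by positivity)]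
    apply ENNReal.ofReal_le_ofReal
    rw [← Real.sqrt_eq_rpow]
    have h1 : 1 ≤ √(1 + 1 / |σ|) := by
      rw [Real.one_le_sqrt]
      have : 0 < 1 / |σ| := by positivity
      linarith
    have h2 : √(6 * (1 / |σ|)) ≤ (5 / 2) * √(1 + 1 / |σ|) := by
      rw [Real.sqrt_mul (by norm_num)]
      have h3 : √6 ≤ 5 / 2 := by
        rw [Real.sqrt_le_left (by norm_num)]
        norm_num
      exact mul_le_mul h3 (Real.sqrt_le_sqrt (by linarith)) (Real.sqrt_nonneg _) (by norm_num)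
    linarith
  have hfirst : ∫⁻ V, pg Ω E v' y V ∂(PL (gl σ) Ω) ≤ F := hF v' hvΩ hsd
  refine (add_le_add hfirst hsum).trans ?_
  have hKle : K ≤ ENNReal.ofReal (2 * d * (C * (6 * (1 + 1 / |σ|) ^ (1 / 2 : ℝ)))) * F := by
    calc K = ENNReal.ofReal (2 * d) * (ENNReal.ofReal C * CA * F) := hK
      _ ≤ ENNReal.ofReal (2 * d) * (ENNReal.ofReal C *
          ENNReal.ofReal (6 * (1 + 1 / |σ|) ^ (1 / 2 : ℝ)) * F) := by gcongr
      _ = _ := by
          rw [ENNReal.ofReal_mul (p := 2 * (d : ℝ)) (by positivity), ENNReal.ofReal_mul (p := C) hC0.le]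
          ring
  set X : ℝ := (1 + 1 / |σ|) ^ (1 / 2 : ℝ) with hX
  have hX1 : 1 ≤ X := by
    rw [hX]
    refine Real.one_le_rpow ?_ (by norm_num)
    have : 0 < 1 / |σ| := by positivity
    linarith
  set M : ℝ := (2 * L + 5) ^ (2 * d) with hM
  have hM1 : 1 ≤ M := by
    rw [hM]
    refine one_le_pow₀ ?_
    have : (0 : ℝ) ≤ L := Nat.cast_nonneg L
    linarith
  have hcast : ((((2 * L + 5) ^ d) ^ 2 : ℕ) : ℝ≥0∞) = ENNReal.ofReal M := by
    rw [hM, ← ENNReal.ofReal_natCast]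
    congr 1
    push_cast
    rw [← pow_mul, mul_comm d 2]
  calc F + (((2 * L + 5) ^ d) ^ 2 : ℕ) * K
      ≤ F + ENNReal.ofReal M * (ENNReal.ofReal (2 * d * (C * (6 * X))) * F) := by
        rw [hcast]
        gcongr
    _ = ENNReal.ofReal 1 * F + ENNReal.ofReal (M * (2 * d * (C * (6 * X)))) * F := by
        rw [ENNReal.ofReal_one, one_mul, ← mul_assoc, ← ENNReal.ofReal_mul (by positivity)]
    _ = ENNReal.ofReal (1 + M * (2 * d * (C * (6 * X)))) * F := by
        rw [← add_mul, ← ENNReal.ofReal_add (by norm_num) (by positivity)]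
    _ ≤ ENNReal.ofReal ((1 + 2 * d * (C * 6)) * X * M) * F := by
        gcongr
        have h1 : 1 ≤ X * M := one_le_mul_of_one_le_of_one_le hX1 hM1
        nlinarith

end Pool.Agent.Mob.H64
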